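import Pool.Agent.helper50.PHN.Spec

set_option autoImplicit false

namespace Pool.Agent.PHN

open Finset

theorem DBB_lp (m q : ℕ) (hq : q ≠ 0) (h : lp m = q) : q.Prime ∧ q ∣ m := by
  have hne : m.primeFactors.Nonempty := by
    rw [Finset.nonempty_iff_ne_empty]
    intro h0
    rw [lp, h0] at h
    exact hq h.symm
  obtain ⟨p, hp, hps⟩ := Finset.exists_mem_eq_sup m.primeFactors hne id
  have hpq : p = q := by
    rw [lp, hps] at h
    exact h
  subst hpq
  exact ⟨Nat.prime_of_mem_primeFactors hp, Nat.dvd_of_mem_primeFactors hp⟩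

theorem DBB_gg (δ : ℕ → ℝ) (q0 m : ℕ) (hδ : ∀ p, 0 ≤ δ p) : 0 ≤ gg δ q0 m := by
  unfold gg
  apply Finset.prod_nonneg
  intro p _
  linarith [hδ p]

theorem DBB (hDQB : DQB_stmt) (hGBB : GBB_stmt) (hNUM : NUM_stmt) : DBB_stmt := by
  obtain ⟨k1, hk1⟩ := hGBB
  obtain ⟨k2, hk2⟩ := hNUM
  refine ⟨max k1 k2, ?_⟩
  intro k hk q0 F hF
  have hkk1 : k ≥ k1 := le_trans (le_max_left _ _) hk
  have hkk2 : k ≥ k2 := le_trans (le_max_right _ _) hk
  have hG := hk1 k hkk1 q0
  obtain ⟨hN, _⟩ := hk2 k hkk2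
  have hk0 : (0 : ℝ) < (k : ℝ) + 1 := by positivity
  have hdl : ∀ p, 0 ≤ dl p := fun p => Real.rpow_nonneg (Nat.cast_nonneg p) _
  have hY1 : 1 ≤ YY k := by
    unfold YY
    exact Real.one_le_exp (by positivity)
  have hlogY : Real.log (YY k) = ((k : ℝ) + 1) ^ 8 := by
    unfold YY
    rw [Real.log_exp]
  set X : ℝ := (2 * (1 + ((k : ℝ) + 1) ^ 8) + 1) ^ (2 * RR k) * ((RR k : ℝ) + 1) ^ 2 *
    (1 + ((k : ℝ) + 1) ^ 8) ^ ((RR k + 1) * (RR k + 1)) with hX
  have hX0 : 0 ≤ X := by positivity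
  have h2R : (0 : ℝ) < (2 : ℝ) ^ (RR k : ℝ) := Real.rpow_pos_of_pos (by norm_num) _
  have h2k : (0 : ℝ) < (2 : ℝ) ^ ((k : ℝ) / 100) := Real.rpow_pos_of_pos (by norm_num) _
  have h2kk : (0 : ℝ) < (2 : ℝ) ^ k := by positivity
  have hmain : ∀ q ∈ Ico (2 ^ k) (2 ^ (k + 1)), DS dl q0 Nat.totient F q ≤
      (2 : ℝ) ^ (RR k : ℝ) * X / ((2 : ℝ) ^ k * (2 : ℝ) ^ ((k : ℝ) / 100)) := by
    intro q hq
    rw [Finset.mem_Ico] at hq
    have hqpos : 0 < q := lt_of_lt_of_le (pow_pos (by norm_num) k) hq.1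
    by_cases hqp : q.Prime
    · set Fq := F.filter (fun i => lp (Nat.totient i) = q) with hFq
      have hqR : (0 : ℝ) < (q : ℝ) := by exact_mod_cast hqpos
      have hFq' : ∀ n ∈ Fq, 1 ≤ n ∧ (n : ℝ) ≤ YY k ∧ n.primeFactors.card ≤ RR k ∧ q ∣ n.totient := by
        intro n hn
        rw [hFq, Finset.mem_filter] at hn
        obtain ⟨hnF, hnl⟩ := hn
        obtain ⟨ha, _, hb, hc⟩ := hF n hnF
        exact ⟨ha, hb, hc, (DBB_lp _ q hqpos.ne' hnl).2⟩
      have hD := hDQB (YY k) (RR k) q Fq hY1 hqp hFq'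
      have hKK : KK (YY k) = 2 * (1 + ((k : ℝ) + 1) ^ 8) := by
        unfold KK
        rw [hlogY]
      rw [hKK, hlogY, ← hX] at hD
      have hgg : ∀ n ∈ Fq, 0 ≤ gg dl q0 n.totient ∧ gg dl q0 n.totient ≤ (2 : ℝ) ^ ((RR k : ℝ) / 2) := by
        intro n hn
        obtain ⟨ha, hb, _, _⟩ := hFq' n hn
        refine ⟨DBB_gg dl q0 _ hdl, ?_⟩
        have h1 : 1 ≤ n.totient := Nat.totient_pos.2 ha
        have h2 : ((n.totient : ℕ) : ℝ) ≤ YY k := by
          refine le_trans ?_ hb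
          exact_mod_cast Nat.totient_le n
        exact (hG n.totient h1).1 h2
      have hhalf : (2 : ℝ) ^ ((RR k : ℝ) / 2) * (2 : ℝ) ^ ((RR k : ℝ) / 2) = (2 : ℝ) ^ (RR k : ℝ) := by
        rw [← Real.rpow_add (by norm_num)]
        congr 1
        ring
      have hqd : 0 < (q : ℝ) * dl q := by
        unfold dl
        exact mul_pos hqR (Real.rpow_pos_of_pos hqR _)
      have hDS : DS dl q0 Nat.totient F q ≤ (2 : ℝ) ^ (RR k : ℝ) / (q * dl q) * (X / q) := by
        unfold DS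
        rw [← hFq]
        calc ∑ i ∈ Fq, ∑ j ∈ Fq, gg dl q0 (Nat.totient i) * gg dl q0 (Nat.totient j) *
              (Nat.gcd (Nat.totient i) (Nat.totient j) : ℝ) / (q * dl q * (Nat.totient i * Nat.totient j))
            ≤ ∑ i ∈ Fq, ∑ j ∈ Fq, (2 : ℝ) ^ (RR k : ℝ) / (q * dl q) *
              ((Nat.gcd (Nat.totient i) (Nat.totient j) : ℝ) / (Nat.totient i * Nat.totient j)) := by
              apply Finset.sum_le_sum
              intro i hi
              apply Finset.sum_le_sum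
              intro j hj
              obtain ⟨hi0, hi1⟩ := hgg i hi
              obtain ⟨hj0, hj1⟩ := hgg j hj
              have h3 : gg dl q0 (Nat.totient i) * gg dl q0 (Nat.totient j) ≤ (2 : ℝ) ^ (RR k : ℝ) := by
                rw [← hhalf]
                exact mul_le_mul hi1 hj1 hj0 (by positivity)
              have h4 : 0 ≤ (Nat.gcd (Nat.totient i) (Nat.totient j) : ℝ) / (Nat.totient i * Nat.totient j) := by
                positivity
              have h5 : gg dl q0 (Nat.totient i) * gg dl q0 (Nat.totient j) *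
                  (Nat.gcd (Nat.totient i) (Nat.totient j) : ℝ) / (q * dl q * (Nat.totient i * Nat.totient j)) =
                  (gg dl q0 (Nat.totient i) * gg dl q0 (Nat.totient j)) / (q * dl q) *
                  ((Nat.gcd (Nat.totient i) (Nat.totient j) : ℝ) / (Nat.totient i * Nat.totient j)) := by
                rw [div_mul_div_comm]
              rw [h5]
              apply mul_le_mul_of_nonneg_right _ h4
              exact div_le_div_of_nonneg_right h3 hqd.le
          _ = (2 : ℝ) ^ (RR k : ℝ) / (q * dl q) * ∑ i ∈ Fq, ∑ j ∈ Fq,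
              ((Nat.gcd (Nat.totient i) (Nat.totient j) : ℝ) / (Nat.totient i * Nat.totient j)) := by
              rw [Finset.mul_sum]
              apply Finset.sum_congr rfl
              intro i _
              rw [Finset.mul_sum]
          _ ≤ (2 : ℝ) ^ (RR k : ℝ) / (q * dl q) * (X / q) := by
              apply mul_le_mul_of_nonneg_left hD
              positivity
      refine le_trans hDS ?_
      have hq2 : (q : ℝ) * dl q * q = (q : ℝ) ^ (101 / 100 : ℝ) := by
        unfold dl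
        have : (q : ℝ) ^ (101 / 100 : ℝ) = (q : ℝ) ^ ((1 : ℝ) + (-(99 / 100) : ℝ) + 1) := by
          congr 1
          norm_num
        rw [this, Real.rpow_add hqR, Real.rpow_add hqR, Real.rpow_one]
      have hq3 : (2 : ℝ) ^ k * (2 : ℝ) ^ ((k : ℝ) / 100) ≤ (q : ℝ) ^ (101 / 100 : ℝ) := by
        have h6 : (2 : ℝ) ^ k * (2 : ℝ) ^ ((k : ℝ) / 100) = ((2 : ℝ) ^ (k : ℝ)) ^ (101 / 100 : ℝ) := by
          rw [← Real.rpow_mul (by norm_num), ← Real.rpow_natCast, ← Real.rpow_add (by norm_num)]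
          congr 1
          ring
        rw [h6]
        apply Real.rpow_le_rpow (by positivity) _ (by norm_num)
        rw [Real.rpow_natCast]
        exact_mod_cast hq.1
      rw [div_mul_div_comm, hq2]
      apply div_le_div_of_nonneg_left (by positivity) (by positivity) hq3
    · have hemp : F.filter (fun i => lp (Nat.totient i) = q) = ∅ := by
        rw [Finset.filter_eq_empty_iff]
        intro n _ hn
        exact hqp (DBB_lp _ q hqpos.ne' hn).1
      unfold DS
      rw [hemp, Finset.sum_empty]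
      positivity
  calc ∑ q ∈ Ico (2 ^ k) (2 ^ (k + 1)), DS dl q0 Nat.totient F q
      ≤ ∑ q ∈ Ico (2 ^ k) (2 ^ (k + 1)), (2 : ℝ) ^ (RR k : ℝ) * X / ((2 : ℝ) ^ k * (2 : ℝ) ^ ((k : ℝ) / 100)) :=
        Finset.sum_le_sum hmain
    _ = (2 : ℝ) ^ k * ((2 : ℝ) ^ (RR k : ℝ) * X / ((2 : ℝ) ^ k * (2 : ℝ) ^ ((k : ℝ) / 100))) := by
        rw [Finset.sum_const, Nat.card_Ico, nsmul_eq_mul]
        have : 2 ^ (k + 1) - 2 ^ k = 2 ^ k := by
          rw [pow_succ]
          omega
        rw [this]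
        push_cast
        ring
    _ = (2 : ℝ) ^ (RR k : ℝ) * X / (2 : ℝ) ^ ((k : ℝ) / 100) := by
        field_simp
    _ ≤ 1 / ((k : ℝ) + 1) ^ 2 := by
        rw [div_le_div_iff₀ h2k (by positivity)]
        rw [one_mul]
        exact hN

end Pool.Agent.PHN
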