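import Pool.Agent.helper50.PHN.Spec

set_option autoImplicit false

namespace Pool.Agent.PHN

open Finset

theorem EXM_inj (n : ℕ) : Set.InjOn (fun p => p ^ n.factorization p) (n.primeFactors : Set ℕ) := by
  intro p hp q hq h
  have hp' : p ∈ n.primeFactors := hp
  have hq' : q ∈ n.primeFactors := hq
  have hpp := Nat.prime_of_mem_primeFactors hp'
  have hqp := Nat.prime_of_mem_primeFactors hq'
  have hv : 0 < n.factorization p :=
    hpp.factorization_pos_of_dvd (Nat.mem_primeFactors.1 hp').2.2 (Nat.dvd_of_mem_primeFactors hp')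
  have h' : p ^ n.factorization p = q ^ n.factorization q := h
  have h1 : p ∣ q ^ n.factorization q := by
    rw [← h']
    exact dvd_pow_self p hv.ne'
  exact (Nat.prime_dvd_prime_iff_eq hpp hqp).1 (hpp.dvd_of_dvd_pow h1)

theorem EXM : EXM_stmt := by
  intro f F T hf0 hf1 hmul hF
  set S : ℕ → Finset ℕ := fun n => n.primeFactors.image (fun p => p ^ n.factorization p) with hS
  have hSn : ∀ n ∈ F, ∏ t ∈ S n, f t = f n := by
    intro n hn
    rw [hS]
    simp only
    rw [Finset.prod_image (EXM_inj n)]
    have := Nat.multiplicative_factorization f (fun a b h => hmul a b h) hf1 (hF n hn).1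
    rw [this, Finsupp.prod, Nat.support_factorization]
  have hSp : ∀ n ∈ F, ∏ t ∈ S n, t = n := by
    intro n hn
    rw [hS]
    simp only
    rw [Finset.prod_image (EXM_inj n)]
    have := Nat.prod_factorization_pow_eq_self (hF n hn).1
    rw [Finsupp.prod, Nat.support_factorization] at this
    exact this
  have hinj : Set.InjOn S (F : Set ℕ) := by
    intro a ha b hb h
    rw [← hSp a ha, ← hSp b hb, h]
  have hsub : F.image S ⊆ T.powerset := by
    intro X hX
    rw [Finset.mem_image] at hX
    obtain ⟨n, hn, rfl⟩ := hX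
    rw [Finset.mem_powerset]
    intro t ht
    rw [hS] at ht
    simp only [Finset.mem_image] at ht
    obtain ⟨p, hp, rfl⟩ := ht
    exact (hF n hn).2 p hp
  calc ∑ n ∈ F, f n = ∑ n ∈ F, ∏ t ∈ S n, f t := Finset.sum_congr rfl (fun n hn => (hSn n hn).symm)
    _ = ∑ X ∈ F.image S, ∏ t ∈ X, f t := (Finset.sum_image (f := fun X => ∏ t ∈ X, f t) hinj).symm
    _ ≤ ∑ X ∈ T.powerset, ∏ t ∈ X, f t :=
        Finset.sum_le_sum_of_subset_of_nonneg hsub (fun X _ _ => Finset.prod_nonneg (fun t _ => hf0 t))
    _ = ∏ t ∈ T, (1 + f t) := (Finset.prod_one_add (s := T)).symm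
    _ ≤ ∏ t ∈ T, Real.exp (f t) := by
        apply Finset.prod_le_prod
        · intro t _
          linarith [hf0 t]
        · intro t _
          linarith [Real.add_one_le_exp (f t)]
    _ = Real.exp (∑ t ∈ T, f t) := (Real.exp_sum T f).symm

end Pool.Agent.PHN
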