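import Pool.Agent.helper50.PHN.Spec

set_option autoImplicit false

namespace Pool.Agent.PHN

open Finset

theorem RNK_two (p v : ℕ) (hp : p.Prime) (hv : 0 < v) : p ^ v ≤ 2 * (p ^ v).totient := by
  rw [Nat.totient_prime_pow hp hv]
  obtain ⟨w, rfl⟩ : ∃ w, v = w + 1 := ⟨v - 1, by omega⟩
  have h2 := hp.two_le
  have h3 : p ≤ 2 * (p - 1) := by omega
  calc p ^ (w + 1) = p ^ w * p := pow_succ p w
    _ ≤ p ^ w * (2 * (p - 1)) := Nat.mul_le_mul_left _ h3
    _ = 2 * (p ^ (w + 1 - 1) * (p - 1)) := by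
        simp only [Nat.add_sub_cancel]
        ring

theorem RNK (hSMV : SMV_stmt) (hEXM : EXM_stmt) (hPPC : PPC_stmt) : RNK_stmt := by
  obtain ⟨C, hC1, hC⟩ := hSMV
  refine ⟨4 * C, by linarith, ?_⟩
  intro k F hF
  set η : ℝ := 1 / (2 * ((k : ℝ) + 1)) with hη
  have hk0 : (0 : ℝ) < (k : ℝ) + 1 := by positivity
  have hη0 : 0 < η := by positivity
  have hη1 : η ≤ 1 := by
    rw [hη, div_le_one (by positivity)]
    have : (0 : ℝ) ≤ (k : ℝ) := Nat.cast_nonneg k
    linarith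
  set T : Finset ℕ := F.biUnion (fun n => n.primeFactors.image (fun p => p ^ n.factorization p)) with hT
  have hTm : ∀ t ∈ T, ∃ p v : ℕ, p.Prime ∧ 0 < v ∧ t = p ^ v ∧ t.totient ∈ (2 ^ (k + 1)).smoothNumbers := by
    intro t ht
    rw [hT, Finset.mem_biUnion] at ht
    obtain ⟨n, hn, ht⟩ := ht
    rw [Finset.mem_image] at ht
    obtain ⟨p, hp, rfl⟩ := ht
    have hpp := Nat.prime_of_mem_primeFactors hp
    have hv : 0 < n.factorization p :=
      hpp.factorization_pos_of_dvd (Nat.mem_primeFactors.1 hp).2.2 (Nat.dvd_of_mem_primeFactors hp)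
    refine ⟨p, n.factorization p, hpp, hv, rfl, ?_⟩
    have hd : (p ^ n.factorization p).totient ∣ n.totient := Nat.totient_dvd_of_dvd (Nat.ordProj_dvd n p)
    exact Nat.mem_smoothNumbers_of_dvd (hF n hn).2 hd
  have h1 := hEXM (fun n => (n : ℝ) ^ η / n.totient) F T ?_ ?_ ?_ ?_
  · refine le_trans h1 ?_
    apply Real.exp_le_exp.2
    have h2 : ∑ t ∈ T, (t : ℝ) ^ η / t.totient ≤ ∑ t ∈ T, (fun v : ℕ => 2 * (v : ℝ) ^ (η - 1)) t.totient := by
      apply Finset.sum_le_sum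
      intro t ht
      obtain ⟨p, v, hp, hv, rfl, hsm⟩ := hTm t ht
      have htp : 0 < (p ^ v).totient := Nat.totient_pos.2 (pow_pos hp.pos v)
      have htp' : (0 : ℝ) < ((p ^ v).totient : ℝ) := by exact_mod_cast htp
      have h3 : ((p ^ v : ℕ) : ℝ) ≤ 2 * ((p ^ v).totient : ℝ) := by exact_mod_cast RNK_two p v hp hv
      have h4 : ((p ^ v : ℕ) : ℝ) ^ η ≤ 2 * ((p ^ v).totient : ℝ) ^ η := by
        calc ((p ^ v : ℕ) : ℝ) ^ η ≤ (2 * ((p ^ v).totient : ℝ)) ^ η :=
              Real.rpow_le_rpow (Nat.cast_nonneg _) h3 hη0.le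
          _ = (2 : ℝ) ^ η * ((p ^ v).totient : ℝ) ^ η := Real.mul_rpow (by norm_num) htp'.le
          _ ≤ 2 * ((p ^ v).totient : ℝ) ^ η := by
              apply mul_le_mul_of_nonneg_right _ (Real.rpow_nonneg htp'.le η)
              calc (2 : ℝ) ^ η ≤ (2 : ℝ) ^ (1 : ℝ) := Real.rpow_le_rpow_of_exponent_le (by norm_num) hη1
                _ = 2 := Real.rpow_one 2
      simp only
      rw [Real.rpow_sub htp', Real.rpow_one, ← mul_div_assoc]
      exact div_le_div_of_nonneg_right h4 htp'.le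
    have h5 := hPPC T (fun v : ℕ => 2 * (v : ℝ) ^ (η - 1)) ?_ ?_
    · have h6 := hC k (T.image Nat.totient) ?_
      · calc ∑ t ∈ T, (t : ℝ) ^ η / t.totient ≤ ∑ t ∈ T, (fun v : ℕ => 2 * (v : ℝ) ^ (η - 1)) t.totient := h2
          _ ≤ 2 * ∑ v ∈ T.image Nat.totient, (fun v : ℕ => 2 * (v : ℝ) ^ (η - 1)) v := h5
          _ = 4 * ∑ v ∈ T.image Nat.totient, (v : ℝ) ^ (η - 1) := by
              rw [Finset.mul_sum, Finset.mul_sum]
              apply Finset.sum_congr rfl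
              intro v _
              ring
          _ ≤ 4 * (C * ((k : ℝ) + 1) ^ 6) := by
              have : ∑ v ∈ T.image Nat.totient, (v : ℝ) ^ (η - 1) ≤ C * ((k : ℝ) + 1) ^ 6 := h6
              linarith
          _ = 4 * C * ((k : ℝ) + 1) ^ 6 := by ring
      · intro v hv
        rw [Finset.mem_image] at hv
        obtain ⟨t, ht, rfl⟩ := hv
        obtain ⟨p, v, _, _, _, hsm⟩ := hTm t ht
        exact hsm
    · intro t ht
      obtain ⟨p, v, hp, hv, rfl, _⟩ := hTm t ht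
      exact hp.isPrimePow.pow hv.ne'
    · intro v
      have : 0 ≤ (v : ℝ) ^ (η - 1) := Real.rpow_nonneg (Nat.cast_nonneg v) _
      linarith
  · intro n
    exact div_nonneg (Real.rpow_nonneg (Nat.cast_nonneg n) _) (Nat.cast_nonneg _)
  · simp
  · intro a b hab
    rw [Nat.totient_mul hab]
    push_cast
    rw [Real.mul_rpow (Nat.cast_nonneg a) (Nat.cast_nonneg b)]
    rw [mul_div_mul_comm]
  · intro n hn
    refine ⟨by have := (hF n hn).1; omega, ?_⟩
    intro p hp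
    rw [hT, Finset.mem_biUnion]
    exact ⟨n, hn, Finset.mem_image.2 ⟨p, hp, rfl⟩⟩

end Pool.Agent.PHN
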